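import Mathlib
import Pool.Agent.Lib.MP_080bf7_an.Defs
import Pool.Agent.Lib.MP_080bf7_an.Main

/-!
For every `m ≥ 1` (in particular `m = 4`), a set of nontrivial characters on `(ℤ/mℤ)^ℕ` is
subgaussian if and only if it is a finite union of quasi-independent sets.
-/

namespace Pool.Agent.Results.MP_080bf7_an.SubgaussianIffFiniteUnion

open Pool.Agent.Lib.MP_080bf7_an

theorem result (m : ℕ) [NeZero m] (Λ : Set (Ghat m)) (h0 : (0 : Ghat m) ∉ Λ) :
    IsSubgaussian m Λ ↔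
      ∃ (N : ℕ) (P : Fin N → Set (Ghat m)),
        (∀ i, IsQuasiIndependent m (P i)) ∧ Λ = ⋃ i, P i :=
  ⟨subgaussian_imp Λ h0, fun ⟨N, P, hP, hΛ⟩ => union_subgaussian Λ N P hP hΛ⟩

end Pool.Agent.Results.MP_080bf7_an.SubgaussianIffFiniteUnion
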